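import Pool.Agent.Helper89.HY.St3

/-!
# Project HY3 (MP_e188f1_nt), module CHB: the chessboard estimate
-/

set_option autoImplicit false

namespace Pool.Agent.Helper48.HY

open Finset
open Pool.Agent.Helper89.HY (FF StCHB)

section chb

variable {G ι : Type} [Group G]

open Classical in
/-- the count with the two halves separated -/
private noncomputable def F6 (s : Finset ι) (z : ι → G) (g0 g1 g2 g3 g4 g5 : G) : ℕ :=
  (((s ×ˢ s ×ˢ s) ×ˢ (s ×ˢ s ×ˢ s)).filter fun t : (ι × ι × ι) × (ι × ι × ι) =>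
    (z t.1.1)⁻¹ * g0 * z t.1.2.1 * g1 * (z t.1.2.2)⁻¹ * g2 * z t.2.1 * g3 * (z t.2.2.1)⁻¹ * g4 *
      z t.2.2.2 * g5 = 1).card

private lemma FF_eq (s : Finset ι) (z : ι → G) (g : Fin 6 → G) :
    FF s z g = F6 s z (g 0) (g 1) (g 2) (g 3) (g 4) (g 5) := by
  classical
  unfold FF F6
  refine Finset.card_equiv ⟨fun i => ((i 0, i 1, i 2), (i 3, i 4, i 5)),
    fun t => ![t.1.1, t.1.2.1, t.1.2.2, t.2.1, t.2.2.1, t.2.2.2], ?_, ?_⟩ ?_
  · intro i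
    funext k
    fin_cases k <;> rfl
  · intro t
    rfl
  · intro i
    rw [Finset.mem_filter, Finset.mem_filter, Fintype.mem_piFinset]
    constructor
    · rintro ⟨h1, h2⟩
      refine ⟨?_, h2⟩
      rw [Finset.mem_product, Finset.mem_product, Finset.mem_product, Finset.mem_product,
        Finset.mem_product]
      exact ⟨⟨h1 0, h1 1, h1 2⟩, h1 3, h1 4, h1 5⟩
    · rintro ⟨h1, h2⟩
      rw [Finset.mem_product, Finset.mem_product, Finset.mem_product, Finset.mem_product,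
        Finset.mem_product] at h1
      obtain ⟨⟨a0, a1, a2⟩, a3, a4, a5⟩ := h1
      refine ⟨fun k => ?_, h2⟩
      fin_cases k
      · exact a0
      · exact a1
      · exact a2
      · exact a3
      · exact a4
      · exact a5

open Classical in
private lemma fib {α β : Type} (P : Finset α) (Q : Finset β) (φ : α → G) (ψ : β → G) (T : Finset G)
    (hT : ∀ p ∈ P, φ p ∈ T) :
    ((P ×ˢ Q).filter fun t : α × β => φ t.1 = ψ t.2).card =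
      ∑ x ∈ T, (P.filter fun p => φ p = x).card * (Q.filter fun q => ψ q = x).card := by
  rw [Finset.card_eq_sum_card_fiberwise (f := fun t : α × β => φ t.1) (t := T)]
  · refine Finset.sum_congr rfl fun x _ => ?_
    rw [← Finset.card_product]
    refine congrArg Finset.card ?_
    ext ⟨a, b⟩
    simp only [Finset.mem_filter, Finset.mem_product]
    constructor
    · rintro ⟨⟨⟨ha, hb⟩, h1⟩, h2⟩
      exact ⟨⟨ha, h2⟩, hb, by rw [← h1]; exact h2⟩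
    · rintro ⟨⟨ha, h2⟩, hb, h3⟩
      exact ⟨⟨⟨ha, hb⟩, by rw [h2, h3]⟩, h2⟩
  · intro t ht
    have ht' := (Finset.mem_filter.1 (Finset.mem_coe.1 ht)).1
    exact hT _ (Finset.mem_product.1 ht').1

open Classical in
private lemma cs {α β : Type} (P : Finset α) (Q : Finset β) (φ : α → G) (ψ : β → G) :
    (((P ×ˢ Q).filter fun t : α × β => φ t.1 = ψ t.2).card) ^ 2 ≤
      ((P ×ˢ P).filter fun t : α × α => φ t.1 = φ t.2).card *
        ((Q ×ˢ Q).filter fun t : β × β => ψ t.1 = ψ t.2).card := by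
  have hP : ∀ p ∈ P, φ p ∈ P.image φ ∪ Q.image ψ := fun p hp =>
    Finset.mem_union_left _ (Finset.mem_image_of_mem _ hp)
  have hQ : ∀ q ∈ Q, ψ q ∈ P.image φ ∪ Q.image ψ := fun q hq =>
    Finset.mem_union_right _ (Finset.mem_image_of_mem _ hq)
  rw [fib P Q φ ψ _ hP, fib P P φ φ _ hP, fib Q Q ψ ψ _ hQ]
  have h := Finset.sum_mul_sq_le_sq_mul_sq (P.image φ ∪ Q.image ψ)
    (fun x => (P.filter fun p => φ p = x).card) (fun x => (Q.filter fun q => ψ q = x).card)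
  simp only [sq] at h ⊢
  exact h

private lemma cyc (x y : G) : x * y = 1 ↔ y * x = 1 := by
  rw [mul_eq_one_iff_eq_inv, mul_eq_one_iff_inv_eq]
  exact eq_comm

private lemma cut1 (s : Finset ι) (z : ι → G) (g0 g1 g2 g3 g4 g5 : G) :
    (F6 s z g0 g1 g2 g3 g4 g5) ^ 2 ≤
      F6 s z g0 g1 1 g1⁻¹ g0⁻¹ 1 * F6 s z 1 g3 g4 1 g4⁻¹ g3⁻¹ := by
  classical
  have h0 := cs (s ×ˢ s ×ˢ s) (s ×ˢ s ×ˢ s)
    (fun p : ι × ι × ι => (z p.1)⁻¹ * g0 * z p.2.1 * g1 * (z p.2.2)⁻¹)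
    (fun q : ι × ι × ι => (g2 * (z q.1 * g3 * (z q.2.1)⁻¹ * g4 * z q.2.2) * g5)⁻¹)
  have h1 : F6 s z g0 g1 g2 g3 g4 g5 = (((s ×ˢ s ×ˢ s) ×ˢ (s ×ˢ s ×ˢ s)).filter
      fun t : (ι × ι × ι) × (ι × ι × ι) =>
        (z t.1.1)⁻¹ * g0 * z t.1.2.1 * g1 * (z t.1.2.2)⁻¹ =
          (g2 * (z t.2.1 * g3 * (z t.2.2.1)⁻¹ * g4 * z t.2.2.2) * g5)⁻¹).card := by
    unfold F6
    refine congrArg Finset.card ?_
    ext t
    simp only [Finset.mem_filter]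
    refine and_congr Iff.rfl ?_
    rw [eq_inv_iff_mul_eq_one]
    simp only [mul_assoc]
  have h2 : (((s ×ˢ s ×ˢ s) ×ˢ (s ×ˢ s ×ˢ s)).filter fun t : (ι × ι × ι) × (ι × ι × ι) =>
      (z t.1.1)⁻¹ * g0 * z t.1.2.1 * g1 * (z t.1.2.2)⁻¹ =
        (z t.2.1)⁻¹ * g0 * z t.2.2.1 * g1 * (z t.2.2.2)⁻¹).card =
      F6 s z g0 g1 1 g1⁻¹ g0⁻¹ 1 := by
    unfold F6
    refine Finset.card_equiv ⟨fun t => ((t.1.1, t.1.2.1, t.1.2.2), (t.2.2.2, t.2.2.1, t.2.1)),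
      fun t => ((t.1.1, t.1.2.1, t.1.2.2), (t.2.2.2, t.2.2.1, t.2.1)), fun _ => rfl,
      fun _ => rfl⟩ ?_
    rintro ⟨⟨a, b, c⟩, ⟨d, e, f⟩⟩
    simp only [Finset.mem_filter, Finset.mem_product, Equiv.coe_fn_mk]
    refine and_congr (by tauto) ?_
    rw [← mul_inv_eq_one]
    simp only [mul_inv_rev, inv_inv, mul_one, mul_assoc]
  have h3 : (((s ×ˢ s ×ˢ s) ×ˢ (s ×ˢ s ×ˢ s)).filter fun t : (ι × ι × ι) × (ι × ι × ι) =>
      (g2 * (z t.1.1 * g3 * (z t.1.2.1)⁻¹ * g4 * z t.1.2.2) * g5)⁻¹ =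
        (g2 * (z t.2.1 * g3 * (z t.2.2.1)⁻¹ * g4 * z t.2.2.2) * g5)⁻¹).card =
      F6 s z 1 g3 g4 1 g4⁻¹ g3⁻¹ := by
    unfold F6
    refine Finset.card_equiv ⟨fun t => ((t.2.1, t.1.1, t.1.2.1), (t.1.2.2, t.2.2.2, t.2.2.1)),
      fun t => ((t.1.2.1, t.1.2.2, t.2.1), (t.1.1, t.2.2.2, t.2.2.1)), fun _ => rfl,
      fun _ => rfl⟩ ?_
    rintro ⟨⟨a, b, c⟩, ⟨d, e, f⟩⟩
    simp only [Finset.mem_filter, Finset.mem_product, Equiv.coe_fn_mk]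
    refine and_congr (by tauto) ?_
    rw [inv_inj, mul_left_inj, mul_right_inj, ← mul_inv_eq_one]
    simp only [mul_inv_rev, inv_inv, mul_one, mul_assoc]
    constructor
    · intro h
      rw [cyc]
      simp only [mul_assoc]
      exact h
    · intro h
      rw [cyc] at h
      simp only [mul_assoc] at h
      exact h
  rw [h1, ← h2, ← h3]
  exact h0

private lemma shift (s : Finset ι) (z : ι → G) (g0 g1 g2 g3 g4 g5 : G) :
    F6 s z g0 g1 g2 g3 g4 g5 = F6 s (fun i => (z i)⁻¹) g1 g2 g3 g4 g5 g0 := by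
  classical
  unfold F6
  refine Finset.card_equiv ⟨fun t => ((t.1.2.1, t.1.2.2, t.2.1), (t.2.2.1, t.2.2.2, t.1.1)),
    fun t => ((t.2.2.2, t.1.1, t.1.2.1), (t.1.2.2, t.2.1, t.2.2.1)), fun _ => rfl,
    fun _ => rfl⟩ ?_
  rintro ⟨⟨a, b, c⟩, ⟨d, e, f⟩⟩
  simp only [Finset.mem_filter, Finset.mem_product, Equiv.coe_fn_mk, inv_inv]
  refine and_congr (by tauto) ?_
  have e1 : (z a)⁻¹ * g0 * z b * g1 * (z c)⁻¹ * g2 * z d * g3 * (z e)⁻¹ * g4 * z f * g5 =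
      ((z a)⁻¹ * g0) * (z b * g1 * (z c)⁻¹ * g2 * z d * g3 * (z e)⁻¹ * g4 * z f * g5) := by
    simp only [mul_assoc]
  have e2 : z b * g1 * (z c)⁻¹ * g2 * z d * g3 * (z e)⁻¹ * g4 * z f * g5 * (z a)⁻¹ * g0 =
      (z b * g1 * (z c)⁻¹ * g2 * z d * g3 * (z e)⁻¹ * g4 * z f * g5) * ((z a)⁻¹ * g0) := by
    simp only [mul_assoc]
  rw [e1, e2]
  exact cyc _ _

private lemma shift2 (s : Finset ι) (z : ι → G) (g0 g1 g2 g3 g4 g5 : G) :
    F6 s z g0 g1 g2 g3 g4 g5 = F6 s z g2 g3 g4 g5 g0 g1 := by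
  have h := shift s (fun i => (z i)⁻¹) g1 g2 g3 g4 g5 g0
  simp only [inv_inv] at h
  rw [shift s z g0 g1 g2 g3 g4 g5, h]

private lemma cut2 (s : Finset ι) (z : ι → G) (g0 g1 g2 g3 g4 g5 : G) :
    (F6 s z g0 g1 g2 g3 g4 g5) ^ 2 ≤
      F6 s z 1 g1 g2 1 g2⁻¹ g1⁻¹ * F6 s z g4 g5 1 g5⁻¹ g4⁻¹ 1 := by
  have h := cut1 s (fun i => (z i)⁻¹) g1 g2 g3 g4 g5 g0
  rw [← shift s z g0 g1 g2 g3 g4 g5, ← shift s z 1 g1 g2 1 g2⁻¹ g1⁻¹,
    ← shift s z g4⁻¹ 1 g4 g5 1 g5⁻¹, shift2 s z g4⁻¹ 1 g4 g5 1 g5⁻¹] at h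
  exact h

end chb

/-- CHB. -/
theorem hCHB : StCHB := by
  intro G ι _ s z g
  classical
  -- a maximum
  obtain ⟨m, hm⟩ : ∃ m : Fin 6 → G, ∀ g' : Fin 6 → G, FF s z g' ≤ FF s z m := by
    have hbdd : BddAbove (Set.range fun g' : Fin 6 → G => FF s z g') := by
      refine ⟨(Fintype.piFinset fun _ : Fin 6 => s).card, ?_⟩
      rintro _ ⟨g', rfl⟩
      exact Finset.card_filter_le _ _
    have hne : (Set.range fun g' : Fin 6 → G => FF s z g').Nonempty := ⟨_, fun _ => 1, rfl⟩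
    obtain ⟨m, hm⟩ := Nat.sSup_mem hne hbdd
    refine ⟨m, fun g' => ?_⟩
    have h := le_csSup hbdd ⟨g', rfl⟩
    rw [← hm] at h
    exact h
  have hm6 : ∀ a b c d e f : G, F6 s z a b c d e f ≤ FF s z m := by
    intro a b c d e f
    have h := hm ![a, b, c, d, e, f]
    rw [FF_eq s z ![a, b, c, d, e, f]] at h
    exact h
  refine (hm g).trans ?_
  rw [FF_eq s z (fun _ => 1)]
  obtain ⟨M, hM⟩ : ∃ M : ℕ, M = FF s z m := ⟨_, rfl⟩
  rw [← hM] at hm6 ⊢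
  rcases Nat.eq_zero_or_pos M with h0 | hpos
  · rw [h0]
    exact Nat.zero_le _
  have canc : ∀ x : ℕ, M ^ 2 ≤ x * M → M ≤ x := by
    intro x hx
    rw [sq] at hx
    exact Nat.le_of_mul_le_mul_right hx hpos
  -- step 1
  have s1 : M ≤ F6 s z (m 0) (m 1) 1 (m 1)⁻¹ (m 0)⁻¹ 1 := by
    refine canc _ ?_
    have h := cut1 s z (m 0) (m 1) (m 2) (m 3) (m 4) (m 5)
    rw [← FF_eq, ← hM] at h
    exact h.trans (Nat.mul_le_mul_left _ (hm6 _ _ _ _ _ _))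
  -- step 2
  have s2 : M ≤ F6 s z (m 0)⁻¹ 1 1 1 (m 0) 1 := by
    refine canc _ ?_
    have h := cut2 s z (m 0) (m 1) 1 (m 1)⁻¹ (m 0)⁻¹ 1
    rw [inv_one, inv_inv] at h
    have h' := (Nat.pow_le_pow_left s1 2).trans h
    rw [mul_comm] at h'
    exact h'.trans (Nat.mul_le_mul_left _ (hm6 _ _ _ _ _ _))
  -- step 3
  refine canc _ ?_
  rw [shift2] at s2
  have h := cut1 s z 1 1 (m 0) 1 (m 0)⁻¹ 1
  rw [inv_one] at h
  have h' := (Nat.pow_le_pow_left s2 2).trans h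
  exact h'.trans (Nat.mul_le_mul_left _ (hm6 _ _ _ _ _ _))

end Pool.Agent.Helper48.HY
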